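import Pool.Agent.Q159.GF.Lines

/-!
# Geometricity of quasi-geometric flat bundles: fibrations

The question: is every semisimple quasi-geometric flat bundle (a regular singular flat bundle defined
over the algebraic numbers whose monodromy is defined over the algebraic numbers) geometric, that is,
a subquotient of a Gauss-Manin bundle on a dense open part? Here `Y` runs over the complements of
normal crossing divisors in smooth proper Deligne-Mumford stacks over the algebraic numbers. A
*fibration* `f : Y → B` is a smooth surjective morphism, locally trivial for the classical topology,
with connected fibres. We prove:

1. Let `f : Y → B` be a fibration by projective lines without finitely many points. If the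
  restriction of an irreducible quasi-geometric bundle `S` on `Y` to the fibres has a rigid
  constituent of multiplicity one then `S` is geometric.
2. More generally, let `T` be a geometric bundle on `U`, `U → Y` etale with dense image, `U → B` a
  fibration. If on the fibres the homomorphisms `T → S` form a space of dimension one then `S` is
  geometric.
3. Let `f : Y → B` be a fibration and suppose that the answer to the question is positive in
  dimension `dim B`. Then an irreducible quasi-geometric bundle on `Y` is geometric if and only if an
  irreducible constituent of its restriction to the fibre over a generic point of `B` is geometric.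
4. So the question in all dimensions `≤ n` is equivalent to the question for irreducible bundles on
  `P^1 - {0, 1, ∞}` and, for `1 ≤ m < n`, to the assertion that the restrictions of the irreducible
  quasi-geometric bundles on open parts `U` of the affine space of dimension `m + 1` to the line
  `(t_1, …, t_m) = b`, `b` generic, have a geometric constituent.

The proof. An irreducible constituent `S_1` of the restriction of `S` to `U` is a quotient of
`T ⊗ f^* W` for an irreducible bundle `W` on `B` contained in the direct image of `Hom(T, S_1)`; it is
quasi-geometric. In 3 it is geometric by the assumption on `B`, and in 1, 2 its rank is one, and it is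
geometric by a theorem of Simpson. By Frobenius reciprocity `S` is geometric.
-/

set_option autoImplicit false

namespace Pool.Agent.Results.MP_e3793a_ag.GenericFibreCriterion

open Pool.Agent.Q187.FM Pool.Agent.Q56.GO Pool.Agent.Q159.GF Pool.Agent.Q159.GF.FibSpaces

/-- **Geometricity of flat bundles and fibrations.** `D.qg Y S`: the flat bundle with monodromy
representation `S` is quasi-geometric; `D.geo Y S`: it is geometric. The hypotheses on `D` and `F` are
known facts. -/
theorem result (D : Spaces ℂ) (F : FibSpaces D) (hs : D.Sums) (hc : D.Covers) (hfin : D.Finite)
    (ho : Objects D) (hf : F.Fibrations) (hsp : F.Spreading) (hk : F.Rigidity)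
    (hr : F.Reductions) :
    F.RigidCase ∧ F.MultiplicityOne ∧ F.Criterion ∧
    (∀ m, InDim D m → (InDim D (m + 1) ↔ F.Lines m)) ∧
    (∀ n, 1 ≤ n → ((∀ m ≤ n, InDim D m) ↔
      D.Irr F.line ∧ ∀ m, 1 ≤ m → m < n → F.Lines m)) :=
  flat_final hs hc hfin ho hf hsp hk hr

end Pool.Agent.Results.MP_e3793a_ag.GenericFibreCriterion
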