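import Pool.Agent.Q56.GO.Flat

/-!
# Geometricity of quasi-geometric flat bundles: the line without three points suffices for curves

The question of Simpson's type considered here: is every semisimple quasi-geometric flat bundle (a
regular singular flat bundle defined over the algebraic numbers whose monodromy is defined over the
algebraic numbers) geometric, that is, a subquotient of a Gauss-Manin bundle on a dense open part?

Here `Y` runs over the complements of normal crossing divisors in smooth proper Deligne-Mumford
stacks over the algebraic numbers. We prove:

1. the question for all `Y` of dimension one follows from the question for the irreducible flat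
   bundles on the single curve `P^1 - {0, 1, ∞}` (theorem of Belyi);
2. the question for all `Y` of dimension `n` follows from the question for the irreducible flat
   bundles on the complements of the hypersurfaces `f = 0` in the affine space of dimension `n`,
   `f` a polynomial with integral coefficients;
3. if the assertion on these complements is true for infinitely many `n`, then the answer to the
   question is positive for all `Y`.

A regular singular flat bundle is a representation of the topological (orbifold) fundamental group.
The proof: direct images under finite etale maps and Frobenius reciprocity.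
-/

set_option autoImplicit false

namespace Pool.Agent.Results.MP_e3793a_ag.ThreePointsSuffice

open Pool.Agent.Q187.FM Pool.Agent.Q56.GO

/-- The special spaces: `line` is `P^1 - {0, 1, ∞}`, and `basic n` is the class of the complements
of the hypersurfaces `f = 0` in the affine space of dimension `n`, where `f ≠ 0` is a polynomial with
integral coefficients. -/
structure Special (D : Spaces ℂ) where
  line : D.Sp
  basic : ℕ → D.Sp → Prop

variable {D : Spaces ℂ}

/-- Belyi: every curve over the algebraic numbers has a dense part which is finite etale over
`P^1 - {0, 1, ∞}`. -/
def Special.Belyi (P : Special D) : Prop := ∀ Y, D.dim Y = 1 → D.Over Y P.line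

/-- Every `Y` of dimension `n` has a dense part which is finite etale over the complement of a
hypersurface in the affine space of dimension `n`. -/
def Special.Noether (P : Special D) : Prop := ∀ Y, ∃ L, P.basic (D.dim Y) L ∧ D.Over Y L

/-- The projection of the complement `L'` of `f = 0` in the affine space of dimension `n + 1` to the
complement `L` of `f = 0` in the affine space of dimension `n` (restrict to a general section). -/
def Special.Projections (P : Special D) : Prop :=
  ∀ n L, P.basic n L → ∃ (L' : D.Sp) (c : D.Pi L' →* D.Pi L), P.basic (n + 1) L' ∧
    Function.Surjective c ∧ (∀ S, D.qg L S → D.qg L' (S.pull c)) ∧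
      ∀ S, D.geo L' (S.pull c) → D.geo L S

theorem descend {P : Special D} (hj : P.Projections) {n : ℕ}
    (h : ∀ L, P.basic (n + 1) L → D.Irr L) : ∀ L, P.basic n L → D.Irr L := by
  intro L hL S hS hirr
  obtain ⟨L', c, h1, h2, h3, h4⟩ := hj n L hL
  exact h4 S (h L' h1 _ (h3 S hS) (irreducible_pull hirr h2))

/-- **Geometricity of flat bundles: reduction to irreducible flat bundles on `P^1 - {0, 1, ∞}` and on
the complements of hypersurfaces in affine spaces.** `D.qg Y S`: the flat bundle with monodromy
representation `S` is quasi-geometric; `D.geo Y S`: it is geometric. -/
theorem result (D : Spaces ℂ) (P : Special D) (hs : D.Sums) (hc : D.Covers) (hf : D.Finite)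
    (hB : P.Belyi) (hN : P.Noether) (hj : P.Projections) :
    (D.Irr P.line → ∀ Y, D.dim Y = 1 → D.Question Y) ∧
      (∀ n, (∀ L, P.basic n L → D.Irr L) → ∀ Y, D.dim Y = n → D.Question Y) ∧
      ((∀ m, ∃ n, m ≤ n ∧ ∀ L, P.basic n L → D.Irr L) → ∀ Y, D.Question Y) := by
  have key : ∀ n, (∀ L, P.basic n L → D.Irr L) → ∀ Y, D.dim Y = n → D.Question Y := by
    rintro n h Y rfl
    obtain ⟨L, hL, hY⟩ := hN Y
    exact question_of_over hs hc hf hY (h L hL)
  refine ⟨fun h Y hY => question_of_over hs hc hf (hB Y hY) h, key, fun h Y => ?_⟩
  obtain ⟨n, hn, h1⟩ := h (D.dim Y)
  refine key (D.dim Y) ?_ Y rfl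
  clear h
  induction n, hn using Nat.le_induction with
  | base => exact h1
  | succ n _ ih => exact ih (descend hj h1)

end Pool.Agent.Results.MP_e3793a_ag.ThreePointsSuffice
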