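import Pool.Agent.Q60.CF.Gen

/-!
# Geometricity of quasi-geometric flat bundles and families of trilinear hypersurfaces

For a trilinear form `T` with coefficients in the set `{0, 1, t_1, …, t_n}` consider the hypersurface
`T(x, y, z) = 1` over the field `ℚ(t_1, …, t_n)`. It is smooth and affine. The question: is every
semisimple quasi-geometric flat bundle geometric, that is, a subquotient of a Gauss-Manin bundle on a
dense open part? Here `Y` runs over the complements of normal crossing divisors in smooth proper
Deligne-Mumford stacks over the algebraic numbers. We prove:

1. the answer is positive for all `Y` of dimension one if and only if all irreducible quasi-geometric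
   flat bundles on the single curve `P^1 - {0, 1, ∞}` occur in the homology of the fibres of
   hypersurfaces `T(x, y, z) = 1`, `T` with coefficients `0`, `1`, `t`;
2. the answer is positive for all `Y` of dimension `n` if and only if all irreducible quasi-geometric
   flat bundles on the complements of the hypersurfaces `f = 0` in the affine space of dimension `n`
   occur in the homology of the fibres of hypersurfaces `T(x, y, z) = 1`, `T` with coefficients `0`,
   `1`, `t_1, …, t_n`.
-/

set_option autoImplicit false

namespace Pool.Agent.Results.MP_e3793a_ag.TrilinearFamilies

open Pool.Agent.Q187.FM Pool.Agent.Q56.GO Pool.Agent.Q60.CF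

/-- The special spaces: `line` is `P^1 - {0, 1, ∞}`, and `basic n` is the class of the complements
of the hypersurfaces `f = 0` in the affine space of dimension `n`, where `f ≠ 0` is a polynomial with
integral coefficients. -/
structure Special (D : Spaces ℂ) where
  line : D.Sp
  basic : ℕ → D.Sp → Prop

variable {D : Spaces ℂ}

/-- The dimensions of the special spaces. -/
structure Special.Dimensions (P : Special D) : Prop where
  line : D.dim P.line = 1
  basic : ∀ n L, P.basic n L → D.dim L = n

/-- Belyi: every curve over the algebraic numbers has a dense part which is finite etale over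
`P^1 - {0, 1, ∞}`. -/
def Special.Belyi (P : Special D) : Prop := ∀ Y, D.dim Y = 1 → D.Over Y P.line

/-- Every `Y` of dimension `n` has a dense part which is finite etale over the complement of a
hypersurface in the affine space of dimension `n`. -/
def Special.Noether (P : Special D) : Prop := ∀ Y, ∃ L, P.basic (D.dim Y) L ∧ D.Over Y L

/-- **Geometricity of flat bundles and trilinear hypersurfaces.** `D.qg Y S`: the flat bundle with
monodromy representation `S` is quasi-geometric; `D.geo Y S`: it is geometric. `Gt`, `G n L`: the
generic points of `line` and of the members `L` of `basic n`, over the algebraic numbers; objects of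
the category: flat bundles on dense open parts; homology: the bundles of the homology of the fibres
(Gauss-Manin). -/
theorem result (D : Spaces ℂ) (P : Special D) (hP : P.Dimensions) (hs : D.Sums) (hc : D.Covers)
    (hf : D.Finite) (hB : P.Belyi) (hN : P.Noether)
    (Gt : Generic D (RatFun 1 ℚ) P.line) (hGt : Gt.Facts)
    (G : ∀ (n : ℕ) (L : D.Sp), Generic D (RatFun n ℚ) L)
    (hG : ∀ n L, P.basic n L → (G n L).Facts) :
    ((∀ Y, D.dim Y = 1 → D.Question Y) ↔ Gt.AllTrilinear (tvar 1 ℚ)) ∧
      ∀ n, (∀ Y, D.dim Y = n → D.Question Y) ↔
        ∀ L, P.basic n L → (G n L).AllTrilinear (tvar n ℚ) :=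
  ⟨criterion hs hc hf (𝒴 := fun Y => D.dim Y = 1) hP.line hB Gt hGt (generates_rat 1),
    fun n => criterion' hs hc hf (𝒴 := fun Y => D.dim Y = n) (ℒ := P.basic n) (hP.basic n)
      (fun Y hY => by
        obtain ⟨L, hL, hYL⟩ := hN Y
        rw [hY] at hL
        exact ⟨L, hL, hYL⟩) (G n) (hG n) (generates_rat n)⟩

end Pool.Agent.Results.MP_e3793a_ag.TrilinearFamilies
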